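import Mathlib
import Pool.Agent.X68.SubGame

/-!
# MP_052694_co, Q1: the nim-sequence and its zero-indicator can have different periods

For the subtraction set `{2, 3, 5, 8, 9, 10}` the nim-sequence has period `26`,
while its zero-indicator has period `13`.
-/

namespace Pool.Agent.Results.MP_052694_co.PeriodThirteenTwentySix

open Pool.Agent.X68

/-- The zero-indicator of the nim-sequence. -/
noncomputable def zeroIndicator (S : Finset ℕ) (n : ℕ) : ℕ :=
  if nimValue S n = 0 then 0 else 1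

/-- The subtraction set `{2, 3, 5, 8, 9, 10}`. -/
def S₀ : Finset ℕ := {2, 3, 5, 8, 9, 10}

/-- The repeating block of the nim-sequence. -/
def tbl : Array ℕ :=
  #[0,0,1,1,2,2,3,0,4,1,3,2,4,0,0,1,1,2,2,4,0,3,1,4,2,3]

/-- The claimed nim-sequence. -/
def f (n : ℕ) : ℕ := tbl[n % 26]!

theorem f_add (n : ℕ) : f (n + 26) = f n := by simp [f]

theorem f_add_mul (k r : ℕ) : f (26 * k + r) = f r := by
  unfold f
  congr 1
  omega

theorem f_sub {k r s : ℕ} (hs : s ≤ 26) (hk : 1 ≤ k) :
    f (26 * k + r - s) = f (r + 26 - s) := by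
  unfold f
  congr 1
  omega

theorem tab1 : ∀ r < 26, ∀ s ∈ S₀, f (r + 26 - s) ≠ f r := by decide

theorem tab2 : ∀ r < 26, ∀ k < f r, ∃ s ∈ S₀, 0 < s ∧ f (r + 26 - s) = k := by decide

theorem tab3 : ∀ r < 26, ∀ s ∈ S₀, 0 < s → s ≤ r → f (r - s) ≠ f r := by decide

theorem tab4 : ∀ r < 26, ∀ k < f r, ∃ s ∈ S₀, 0 < s ∧ s ≤ r ∧ f (r - s) = k := by decide

theorem S₀_le : ∀ s ∈ S₀, s ≤ 26 := by decide

theorem nimValue_eq (n : ℕ) : nimValue S₀ n = f n := by
  apply nimValue_eq_of_rec
  · intro n s hs h0 hn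
    obtain ⟨k, r, hr, rfl⟩ : ∃ k r, r < 26 ∧ n = 26 * k + r :=
      ⟨n / 26, n % 26, Nat.mod_lt _ (by norm_num), (Nat.div_add_mod n 26).symm⟩
    rcases Nat.eq_zero_or_pos k with rfl | hk
    · simp only [mul_zero, zero_add] at hn ⊢
      exact tab3 r hr s hs h0 hn
    · rw [f_sub (S₀_le s hs) hk, f_add_mul]
      exact tab1 r hr s hs
  · intro n m hm
    obtain ⟨k, r, hr, rfl⟩ : ∃ k r, r < 26 ∧ n = 26 * k + r :=
      ⟨n / 26, n % 26, Nat.mod_lt _ (by norm_num), (Nat.div_add_mod n 26).symm⟩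
    rw [f_add_mul] at hm
    rcases Nat.eq_zero_or_pos k with rfl | hk
    · simp only [mul_zero, zero_add]
      exact tab4 r hr m hm
    · obtain ⟨s, hs, h0, he⟩ := tab2 r hr m hm
      exact ⟨s, hs, h0, by have := S₀_le s hs; omega, by rw [f_sub (S₀_le s hs) hk]; exact he⟩

theorem aper26 : ∀ q < 26, 1 ≤ q → ∃ r < 26, f (r + q) ≠ f r := by decide

theorem zper13 : ∀ q < 13, 1 ≤ q → ∃ r < 26,
    (if f (r + q) = 0 then 0 else 1) ≠ (if f r = 0 then 0 else 1) := by decide

theorem ztab : ∀ r < 26, (if f (r + 13) = 0 then 0 else 1) = (if f r = 0 then 0 else 1) := by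
  decide

/-- **Q1 of MP_052694_co is false.**  For the subtraction set `S₀ = {2, 3, 5, 8, 9, 10}` (a
nonempty finite set of positive integers) the nim-sequence has period `26`, whereas its
zero-indicator has period `13`. -/
theorem result :
    S₀.Nonempty ∧ (∀ s ∈ S₀, 0 < s) ∧
    IsUltimatePeriod (nimValue S₀) 26 ∧
    IsUltimatePeriod (zeroIndicator S₀) 13 ∧
    ¬ (∀ S : Finset ℕ, S.Nonempty → (∀ s ∈ S, 0 < s) → ∀ p q : ℕ,
        IsUltimatePeriod (nimValue S) p → IsUltimatePeriod (zeroIndicator S) q → p = q) := by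
  have hne : S₀.Nonempty := ⟨2, by decide⟩
  have hpos : ∀ s ∈ S₀, 0 < s := by decide
  have h26 : IsUltimatePeriod (nimValue S₀) 26 := by
    constructor
    · refine ⟨by norm_num, 0, fun n _ => ?_⟩
      rw [nimValue_eq, nimValue_eq, f_add]
    · rintro q ⟨hq1, n₀, hq⟩
      by_contra hlt
      push Not at hlt
      obtain ⟨r, hr, hne⟩ := aper26 q hlt hq1
      have := hq (26 * n₀ + r) (by omega)
      rw [nimValue_eq, nimValue_eq, add_assoc, f_add_mul, f_add_mul] at this
      exact hne this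
  have h13 : IsUltimatePeriod (zeroIndicator S₀) 13 := by
    constructor
    · refine ⟨by norm_num, 0, fun n _ => ?_⟩
      unfold zeroIndicator
      rw [nimValue_eq, nimValue_eq]
      have := ztab (n % 26) (Nat.mod_lt _ (by norm_num))
      have e1 : f n = f (n % 26) := by simp [f]
      have e2 : f (n + 13) = f (n % 26 + 13) := by
        unfold f
        congr 1
        omega
      rw [e1, e2]
      exact this
    · rintro q ⟨hq1, n₀, hq⟩
      by_contra hlt
      push Not at hlt
      obtain ⟨r, hr, hne⟩ := zper13 q hlt hq1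
      have := hq (26 * n₀ + r) (by omega)
      unfold zeroIndicator at this
      rw [nimValue_eq, nimValue_eq, add_assoc, f_add_mul, f_add_mul] at this
      exact hne this
  refine ⟨hne, hpos, h26, h13, fun h => ?_⟩
  have := h S₀ hne hpos 26 13 h26 h13
  omega

end Pool.Agent.Results.MP_052694_co.PeriodThirteenTwentySix
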